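import Pool.Agent.Helper40.LS.Basic

/-!
# Project LS, module H3: independent transversals (Rosenfeld counting)
-/

set_option autoImplicit false
open Classical Filter Topology

namespace Pool.Agent.Helper40.LS

/-- independent sets of representatives on `J` -/
noncomputable def h36T {ι α : Type} [Fintype ι] [Fintype α] (P : ι → Finset α)
    (conf : ι × α → ι × α → Prop) (J : Finset ι) : Finset (ι → Option α) :=
  Finset.univ.filter fun f => (∀ i, i ∉ J → f i = none) ∧ (∀ i ∈ J, ∃ a ∈ P i, f i = some a) ∧
    ∀ i j a a', i ≠ j → f i = some a → f j = some a' → ¬ conf (i, a) (j, a')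

theorem h36T_mem {ι α : Type} [Fintype ι] [Fintype α] {P : ι → Finset α}
    {conf : ι × α → ι × α → Prop} {J : Finset ι} {f : ι → Option α} :
    f ∈ h36T P conf J ↔ (∀ i, i ∉ J → f i = none) ∧ (∀ i ∈ J, ∃ a ∈ P i, f i = some a) ∧
      ∀ i j a a', i ≠ j → f i = some a → f j = some a' → ¬ conf (i, a) (j, a') := by
  unfold h36T
  rw [Finset.mem_filter]
  exact ⟨fun h => h.2, fun h => ⟨Finset.mem_univ _, h⟩⟩

theorem h36T_empty {ι α : Type} [Fintype ι] [Fintype α] (P : ι → Finset α)
    (conf : ι × α → ι × α → Prop) : 1 ≤ (h36T P conf ∅).card := by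
  rw [Nat.one_le_iff_ne_zero, Finset.card_ne_zero]
  refine ⟨fun _ => none, ?_⟩
  rw [h36T_mem]
  refine ⟨fun _ _ => rfl, ?_, ?_⟩
  · intro i hi
    simp at hi
  · intro i j a a' _ h
    simp at h

/-- fixing a value bounds the number of systems by the number without that index -/
theorem h36T_fix {ι α : Type} [Fintype ι] [Fintype α] (P : ι → Finset α)
    (conf : ι × α → ι × α → Prop) (J : Finset ι) (j : ι) (a : α) :
    ((h36T P conf J).filter fun f => f j = some a).card ≤ (h36T P conf (J.erase j)).card := by
  refine Finset.card_le_card_of_injOn (fun f => Function.update f j none) ?_ ?_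
  · intro f hf
    rw [Finset.mem_coe, Finset.mem_filter, h36T_mem] at hf
    obtain ⟨⟨h1, h2, h3⟩, h4⟩ := hf
    rw [Finset.mem_coe, h36T_mem]
    refine ⟨?_, ?_, ?_⟩
    · intro i hi
      by_cases hij : i = j
      · subst hij
        simp
      · simp only [Function.update_of_ne hij]
        exact h1 i fun h => hi (Finset.mem_erase.2 ⟨hij, h⟩)
    · intro i hi
      rw [Finset.mem_erase] at hi
      simp only [Function.update_of_ne hi.1]
      exact h2 i hi.2
    · intro i k c c' hik hi hk
      by_cases hij : i = j
      · subst hij
        simp at hi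
      · by_cases hkj : k = j
        · subst hkj
          simp at hk
        · simp only [Function.update_of_ne hij] at hi
          simp only [Function.update_of_ne hkj] at hk
          exact h3 i k c c' hik hi hk
  · intro f hf g hg hfg
    rw [Finset.mem_coe, Finset.mem_filter] at hf hg
    funext i
    by_cases hij : i = j
    · rw [hij, hf.2, hg.2]
    · have := congrFun hfg i
      simp only [Function.update_of_ne hij] at this
      exact this

theorem h36T_step {ι α : Type} [Fintype ι] [Fintype α] (P : ι → Finset α)
    (conf : ι × α → ι × α → Prop) (hsym : ∀ x y, conf x y → conf y x) (Δ b : ℕ)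
    (hb : 4 * Δ ≤ b) (hb0 : 1 ≤ b) (hP : ∀ i, b ≤ (P i).card)
    (hΔ : ∀ i, ∀ a ∈ P i,
      (Finset.univ.filter fun y : ι × α => y.1 ≠ i ∧ y.2 ∈ P y.1 ∧ conf (i, a) y).card ≤ Δ)
    (m : ℕ) : ∀ (J : Finset ι), J.card = m → ∀ i, i ∉ J →
      b * (h36T P conf J).card ≤ 2 * (h36T P conf (insert i J)).card := by
  induction m with
  | zero =>
    intro J hJ i hi
    have hJ0 : J = ∅ := Finset.card_eq_zero.1 hJ
    subst hJ0
    have h1 : (h36T P conf ∅).card ≤ 1 := by
      rw [Finset.card_le_one]
      intro f hf g hg
      rw [h36T_mem] at hf hg
      funext k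
      rw [hf.1 k (by simp), hg.1 k (by simp)]
    have h2 : (P i).card ≤ (h36T P conf (insert i ∅)).card := by
      refine Finset.card_le_card_of_injOn
        (fun a => Function.update (fun _ => (none : Option α)) i (some a)) ?_ ?_
      · intro a ha
        rw [Finset.mem_coe] at ha
        rw [Finset.mem_coe, h36T_mem]
        refine ⟨?_, ?_, ?_⟩
        · intro k hk
          have : k ≠ i := by
            intro h
            apply hk
            rw [h]
            exact Finset.mem_insert_self _ _
          simp only [Function.update_of_ne this]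
        · intro k hk
          have : k = i := by
            simpa using hk
          subst this
          exact ⟨a, ha, by simp⟩
        · intro k l c c' hkl hk hl
          by_cases hki : k = i
          · have hli : l ≠ i := fun h => hkl (hki.trans h.symm)
            simp only [Function.update_of_ne hli] at hl
            simp at hl
          · simp only [Function.update_of_ne hki] at hk
            simp at hk
      · intro a _ a' _ h
        have := congrFun h i
        simpa using this
    have h3 := hP i
    nlinarith
  | succ m ih =>
    intro J hJ i hi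
    -- pairs
    have key : (P i).card * (h36T P conf J).card ≤ (h36T P conf (insert i J)).card +
        ∑ a ∈ P i, ∑ y ∈ (Finset.univ.filter fun y : ι × α => y.1 ≠ i ∧ y.2 ∈ P y.1 ∧
          conf (i, a) y), ((h36T P conf J).filter fun f => f y.1 = some y.2).card := by
      have h1 : ((P i) ×ˢ (h36T P conf J)).card = (P i).card * (h36T P conf J).card :=
        Finset.card_product _ _
      rw [← h1]
      have h2 : ((P i) ×ˢ (h36T P conf J)) ⊆
          (((P i) ×ˢ (h36T P conf J)).filter fun q => ∀ j a', j ≠ i → q.2 j = some a' →
            ¬ conf (i, q.1) (j, a')) ∪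
          (((P i) ×ˢ (h36T P conf J)).filter fun q => ∃ j a', j ≠ i ∧ q.2 j = some a' ∧
            conf (i, q.1) (j, a')) := by
        intro q hq
        rw [Finset.mem_union, Finset.mem_filter, Finset.mem_filter]
        by_cases h : ∃ j a', j ≠ i ∧ q.2 j = some a' ∧ conf (i, q.1) (j, a')
        · exact Or.inr ⟨hq, h⟩
        · refine Or.inl ⟨hq, fun j a' h1 h2 h3 => h ⟨j, a', h1, h2, h3⟩⟩
      refine (Finset.card_le_card h2).trans ((Finset.card_union_le _ _).trans
        (Nat.add_le_add ?_ ?_))
      · refine Finset.card_le_card_of_injOn (fun q => Function.update q.2 i (some q.1)) ?_ ?_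
        · intro q hq
          rw [Finset.mem_coe, Finset.mem_filter, Finset.mem_product, h36T_mem] at hq
          obtain ⟨⟨ha, h3, h4, h5⟩, h6⟩ := hq
          rw [Finset.mem_coe, h36T_mem]
          refine ⟨?_, ?_, ?_⟩
          · intro k hk
            rw [Finset.mem_insert, not_or] at hk
            simp only [Function.update_of_ne hk.1]
            exact h3 k hk.2
          · intro k hk
            by_cases hki : k = i
            · subst hki
              exact ⟨q.1, ha, by simp⟩
            · rw [Finset.mem_insert] at hk
              simp only [Function.update_of_ne hki]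
              exact h4 k (hk.resolve_left hki)
          · intro k l c c' hkl hk hl
            by_cases hki : k = i
            · have hli : l ≠ i := fun h => hkl (hki.trans h.symm)
              simp only [Function.update_of_ne hli] at hl
              subst hki
              have hc : q.1 = c := by simpa using hk
              subst hc
              exact h6 l c' hli hl
            · simp only [Function.update_of_ne hki] at hk
              by_cases hli : l = i
              · subst hli
                have hc : q.1 = c' := by simpa using hl
                subst hc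
                intro h7
                exact h6 k c hki hk (hsym _ _ h7)
              · simp only [Function.update_of_ne hli] at hl
                exact h5 k l c c' hkl hk hl
        · intro q hq q' hq' h
          rw [Finset.mem_coe, Finset.mem_filter, Finset.mem_product, h36T_mem] at hq hq'
          have h7 : q.1 = q'.1 := by
            have := congrFun h i
            simpa using this
          have h8 : q.2 = q'.2 := by
            funext k
            by_cases hki : k = i
            · rw [hki, hq.1.2.1 i hi, hq'.1.2.1 i hi]
            · have := congrFun h k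
              simp only [Function.update_of_ne hki] at this
              exact this
          exact Prod.ext h7 h8
      · have h9 : (((P i) ×ˢ (h36T P conf J)).filter fun q => ∃ j a', j ≠ i ∧ q.2 j = some a' ∧
            conf (i, q.1) (j, a')) ⊆ (P i).biUnion fun a =>
            (Finset.univ.filter fun y : ι × α => y.1 ≠ i ∧ y.2 ∈ P y.1 ∧ conf (i, a) y).biUnion
              fun y => ((h36T P conf J).filter fun f => f y.1 = some y.2).image fun f => (a, f) := by
          intro q hq
          rw [Finset.mem_filter, Finset.mem_product] at hq
          obtain ⟨⟨ha, hf⟩, j, a', hj, hja, hc⟩ := hq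
          rw [Finset.mem_biUnion]
          refine ⟨q.1, ha, ?_⟩
          rw [Finset.mem_biUnion]
          refine ⟨(j, a'), ?_, ?_⟩
          · rw [Finset.mem_filter]
            refine ⟨Finset.mem_univ _, hj, ?_, hc⟩
            have hf' := h36T_mem.1 hf
            have hjJ : j ∈ J := by
              by_contra h
              rw [hf'.1 j h] at hja
              simp at hja
            obtain ⟨a'', h1, h2⟩ := hf'.2.1 j hjJ
            rw [hja] at h2
            have : a' = a'' := by simpa using h2
            rw [this]
            exact h1
          · rw [Finset.mem_image]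
            exact ⟨q.2, Finset.mem_filter.2 ⟨hf, hja⟩, rfl⟩
        refine (Finset.card_le_card h9).trans (Finset.card_biUnion_le.trans ?_)
        refine Finset.sum_le_sum fun a _ => Finset.card_biUnion_le.trans ?_
        exact Finset.sum_le_sum fun y _ => Finset.card_image_le
    -- the number with a fixed value
    have hfix : ∀ y : ι × α, b * ((h36T P conf J).filter fun f => f y.1 = some y.2).card ≤
        2 * (h36T P conf J).card := by
      intro y
      by_cases hy : y.1 ∈ J
      · have h1 := h36T_fix P conf J y.1 y.2
        have h2 := ih (J.erase y.1) (by rw [Finset.card_erase_of_mem hy, hJ]; rfl) y.1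
          (Finset.notMem_erase _ _)
        rw [Finset.insert_erase hy] at h2
        exact (Nat.mul_le_mul_left b h1).trans h2
      · have h1 : ((h36T P conf J).filter fun f => f y.1 = some y.2) = ∅ := by
          rw [Finset.filter_eq_empty_iff]
          intro f hf h
          rw [(h36T_mem.1 hf).1 _ hy] at h
          simp at h
        rw [h1]
        simp
    have hsum : b * (∑ a ∈ P i, ∑ y ∈ (Finset.univ.filter fun y : ι × α => y.1 ≠ i ∧ y.2 ∈ P y.1 ∧
          conf (i, a) y), ((h36T P conf J).filter fun f => f y.1 = some y.2).card) ≤
        (P i).card * (Δ * (2 * (h36T P conf J).card)) := by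
      rw [Finset.mul_sum]
      have h1 : ∀ a ∈ P i, b * (∑ y ∈ (Finset.univ.filter fun y : ι × α => y.1 ≠ i ∧
          y.2 ∈ P y.1 ∧ conf (i, a) y), ((h36T P conf J).filter fun f => f y.1 = some y.2).card) ≤
          Δ * (2 * (h36T P conf J).card) := by
        intro a ha
        rw [Finset.mul_sum]
        refine (Finset.sum_le_card_nsmul _ _ _ fun y _ => hfix y).trans ?_
        rw [smul_eq_mul]
        exact Nat.mul_le_mul_right _ (hΔ i a ha)
      refine (Finset.sum_le_card_nsmul _ _ _ h1).trans ?_
      rw [smul_eq_mul]
    have hPi := hP i
    set T := (h36T P conf J).card with hT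
    set T' := (h36T P conf (insert i J)).card with hT'
    set S := ∑ a ∈ P i, ∑ y ∈ (Finset.univ.filter fun y : ι × α => y.1 ≠ i ∧ y.2 ∈ P y.1 ∧
          conf (i, a) y), ((h36T P conf J).filter fun f => f y.1 = some y.2).card with hS
    set p := (P i).card with hp
    -- b p T ≤ b T' + 2 p Δ T and 4 Δ ≤ b
    have h1 : b * (p * T) ≤ b * T' + p * (Δ * (2 * T)) :=
      (Nat.mul_le_mul_left b key).trans (by rw [Nat.mul_add]; exact Nat.add_le_add_left hsum _)
    have h2 : 2 * (p * (Δ * (2 * T))) ≤ b * (p * T) := by
      have : p * T * (4 * Δ) ≤ p * T * b := Nat.mul_le_mul_left _ hb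
      nlinarith
    have h3 : b * (p * T) ≤ b * (2 * T') := by nlinarith
    have h4 : p * T ≤ 2 * T' := Nat.le_of_mul_le_mul_left h3 hb0
    exact (Nat.mul_le_mul_right T hPi).trans h4

theorem indep_transversal {ι α : Type} [Fintype ι] [Fintype α] (P : ι → Finset α)
    (conf : ι × α → ι × α → Prop) (hsym : ∀ x y, conf x y → conf y x) (Δ b : ℕ)
    (hb : 4 * Δ ≤ b) (hb0 : 1 ≤ b) (hP : ∀ i, b ≤ (P i).card)
    (hΔ : ∀ i, ∀ a ∈ P i,
      (Finset.univ.filter fun y : ι × α => y.1 ≠ i ∧ y.2 ∈ P y.1 ∧ conf (i, a) y).card ≤ Δ) :
    ∃ f : ι → α, (∀ i, f i ∈ P i) ∧ ∀ i j, i ≠ j → ¬ conf (i, f i) (j, f j) := by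
  have hpos : ∀ J : Finset ι, 1 ≤ (h36T P conf J).card := by
    intro J
    induction J using Finset.induction_on with
    | empty => exact h36T_empty P conf
    | insert i J hi ih =>
      have h1 := h36T_step P conf hsym Δ b hb hb0 hP hΔ J.card J rfl i hi
      by_contra h2
      have h3 : (h36T P conf (insert i J)).card = 0 := by omega
      rw [h3, Nat.mul_zero, Nat.le_zero, Nat.mul_eq_zero] at h1
      rcases h1 with h1 | h1 <;> omega
  have h1 := hpos Finset.univ
  rw [Nat.one_le_iff_ne_zero, Finset.card_ne_zero] at h1
  obtain ⟨f, hf⟩ := h1
  rw [h36T_mem] at hf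
  obtain ⟨-, h2, h3⟩ := hf
  choose g hg hfg using fun i => h2 i (Finset.mem_univ i)
  exact ⟨g, hg, fun i j hij => h3 i j _ _ hij (hfg i) (hfg j)⟩

end Pool.Agent.Helper40.LS
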